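import Mathlib
import Pool.Agent.X255.ACmax.Suf

/-!
Classification of the finite p-groups `G` with `|Aut_c(G)| = |γ₂(G)| ^ d(G)`.
-/

set_option autoImplicit false

open scoped commutatorElement

namespace Pool.Agent.Results.MP_932391_al.Classification

open Pool.Agent.X255.ACmax Pool.Agent.Helper832.AutC

/-- the group of class-preserving automorphisms of `G` -/
def classPreserving (G : Type) [Group G] : Subgroup (MulAut G) where
  carrier := {α | ∀ x : G, IsConj x (α x)}
  mul_mem' := by
    intro α β hα hβ x
    exact (hβ x).trans (hα (β x))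
  one_mem' := fun x => IsConj.refl x
  inv_mem' := by
    intro α hα x
    have h := hα (α⁻¹ x)
    rw [MulAut.apply_inv_self] at h
    exact h.symm

/-- `γ₃(G) = [γ₂(G), G]` -/
def gamma3 (G : Type) [Group G] : Subgroup G := ⁅commutator G, (⊤ : Subgroup G)⁆

/-- `γ₄(G) = [γ₃(G), G]` -/
def gamma4 (G : Type) [Group G] : Subgroup G := ⁅gamma3 G, (⊤ : Subgroup G)⁆

/-- every element outside the Frattini subgroup is conjugate to its whole coset of `γ₂(G)` -/
def CosetClasses (G : Type) [Group G] : Prop :=
  ∀ x : G, x ∉ frattini G → {y | IsConj x y} = {y | ∃ c ∈ commutator G, y = x * c}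

theorem cosetClasses_iff {G : Type} [Group G] :
    CosetClasses G ↔ ∀ x ∉ frattini G, ∀ c ∈ commutator G, IsConj x (x * c) := by
  constructor
  · intro h x hx c hc
    have h1 : x * c ∈ {y | ∃ c ∈ commutator G, y = x * c} := ⟨c, hc, rfl⟩
    rw [← h x hx] at h1
    exact h1
  · intro h x hx
    ext y
    constructor
    · intro hy
      obtain ⟨g, hg⟩ := isConj_iff.mp hy
      refine ⟨x⁻¹ * y, ?_, by group⟩
      have h1 : x⁻¹ * y = ⁅x⁻¹, g⁆ := by
        rw [← hg, commutatorElement_def]; group
      rw [h1]
      exact comm_mem _ _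
    · rintro ⟨c, hc, rfl⟩
      exact h x hx c hc

theorem result :
    -- the classification
    (∀ (p : ℕ) (G : Type) [Fact p.Prime] [Group G] [Finite G], IsPGroup p G →
      (Nat.card (classPreserving G) = Nat.card (commutator G) ^ Group.rank G ↔
        (gamma3 G = ⊥ ∧ CosetClasses G) ∨
        (Group.rank G = 2 ∧ IsCyclic (commutator G) ∧
          (p = 2 → ∀ v ∈ gamma3 G, ∃ c ∈ commutator G, c ^ 4 = v)) ∨
        (p = 2 ∧ Group.rank G = 2 ∧ gamma3 G ≠ ⊥ ∧ gamma4 G = ⊥ ∧
          ∀ c ∈ commutator G, c ^ 2 = 1))) ∧
    -- the condition on cosets in class at most two, in terms of centres of quotients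
    (∀ (p : ℕ) (G : Type) [Fact p.Prime] [Group G] [Finite G], IsPGroup p G → gamma3 G = ⊥ →
      (CosetClasses G ↔ ∀ N : Subgroup G, N ⋖ commutator G →
        ∀ z : G, (∀ g : G, ⁅z, g⁆ ∈ N) ↔ z ∈ frattini G)) := by
  refine ⟨?_, ?_⟩
  · intro p G _ _ _ hG
    constructor
    · intro hcard
      have h := hyp_of_card hG hcard
      rcases necessity h with h1 | h1 | h1
      · exact Or.inl ⟨h1.1, cosetClasses_iff.mpr h1.2⟩
      · exact Or.inr (Or.inl h1)
      · exact Or.inr (Or.inr h1)
    · intro h
      show Nat.card (AutC G) = _
      obtain ⟨x, hx⟩ := exists_gen_rank (G := G)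
      have hmin : IsMinGen x := isMinGen_of (fun n y hy => rank_min n y hy) x hx
      rcases h with ⟨h3, hA⟩ | ⟨hr, hcyc, h4⟩ | ⟨hp2, hr, -, h4, h2⟩
      · refine card_of_real x hx (fun c hc => ?_)
        exact suf_two hG h3 (cosetClasses_iff.mp hA) x hmin c hc
      · obtain ⟨a, b, hab, -⟩ := exists_pair_of_rank hr
        obtain ⟨x, y, hxy, hreal⟩ := cyc_suf hG a b hab hcyc h4
        rw [hr]
        exact card_of_pair x y hxy hreal
      · subst hp2
        obtain ⟨a, b, hab, hm⟩ := exists_pair_of_rank hr
        rw [hr]
        exact card_of_pair a b hab (fun c₁ hc₁ c₂ hc₂ =>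
          suf_three hG h4 h2 a b hab hm c₁ c₂ hc₁ hc₂)
  · intro p G _ _ _ hG h3
    have hcen : ∀ c ∈ commutator G, ∀ g : G, c * g = g * c := by
      intro c hc g
      rw [← commutatorElement_eq_one_iff_mul_comm]
      have := g3_mem hc g
      have h3' : g3 G = ⊥ := h3
      rw [h3', Subgroup.mem_bot] at this
      exact this
    rw [cosetClasses_iff]
    constructor
    · intro hA N hN z
      constructor
      · intro hz
        by_contra hzF
        apply hN.lt.not_ge
        intro c hc
        obtain ⟨t, ht⟩ := isConj_iff.mp (hA z hzF c hc)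
        have h1 : ⁅t, z⁆ = c := by
          rw [commutatorElement_def, ht, ← hcen c hc, mul_inv_cancel_right]
        rw [← h1, ← commutatorElement_inv]
        exact inv_mem (hz t)
      · intro hzF g
        -- `N` contains the `p`-th powers
        have hNp : ∀ c ∈ commutator G, c ^ p ∈ N := by
          intro c hc
          by_cases hcN : c ∈ N
          · exact pow_mem hcN p
          · by_contra hcp
            have hNn : N.Normal := by
              constructor
              intro n hn g
              have : g * n * g⁻¹ = n := by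
                rw [← hcen n (hN.le hn) g, mul_inv_cancel_right]
              rw [this]; exact hn
            have h1 : N ⊔ Subgroup.zpowers (c ^ p) = commutator G := by
              have h2 : N < N ⊔ Subgroup.zpowers (c ^ p) := by
                refine lt_of_le_of_ne le_sup_left (fun heq => hcp ?_)
                rw [heq]
                exact (le_sup_right : _ ≤ N ⊔ Subgroup.zpowers (c ^ p))
                  (Subgroup.mem_zpowers _)
              have h3 : N ⊔ Subgroup.zpowers (c ^ p) ≤ commutator G :=
                sup_le hN.le (by rw [Subgroup.zpowers_le]; exact pow_mem hc p)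
              by_contra hne
              exact hN.2 h2 (lt_of_le_of_ne h3 hne)
            have h4 : c ∈ N ⊔ Subgroup.zpowers (c ^ p) := by rw [h1]; exact hc
            rw [Subgroup.mem_sup_of_normal_left] at h4
            obtain ⟨n, hn, _, ⟨k, rfl⟩, hnk⟩ := h4
            have h5 : c ^ (1 - (p : ℤ) * k) = n := by
              have h6 : n * (c ^ p) ^ k = c := hnk
              rw [zpow_sub, zpow_one, zpow_mul, zpow_natCast]
              nth_rewrite 1 [← h6]
              rw [mul_inv_cancel_right]
            refine hcN (mem_of_zpow_mem hG N c (1 - (p : ℤ) * k) ?_ (by rw [h5]; exact hn))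
            intro hd
            have hp1 : (p : ℤ) ∣ 1 := by
              have h7 := dvd_add hd (dvd_mul_right (p : ℤ) k)
              rwa [sub_add_cancel] at h7
            have h8 : p ∣ 1 := by exact_mod_cast hp1
            exact (Fact.out : p.Prime).one_lt.ne' (Nat.dvd_one.mp h8)
        obtain ⟨h, e, he, rfl⟩ := frattini_form hG z hzF
        have h1 : ⁅g, h ^ p * e⁆ = ⁅g, h⁆ ^ p := comm_pow_two hcen g h e he p
        rw [← commutatorElement_inv, h1]
        exact inv_mem (hNp _ (comm_mem g h))
    · intro hN x hx c hc
      -- the set of commutators with `x` is a subgroup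
      let φ : G →* commutator G :=
        { toFun := fun t => ⟨⁅t, x⁆, comm_mem t x⟩
          map_one' := by
            apply Subtype.ext
            exact commutatorElement_one_left x
          map_mul' := by
            intro a b
            apply Subtype.ext
            show ⁅a * b, x⁆ = ⁅a, x⁆ * ⁅b, x⁆
            have e1 : ⁅a * b, x⁆ = (a * ⁅b, x⁆ * a⁻¹) * ⁅a, x⁆ := by
              simp only [commutatorElement_def]; group
            rw [e1, ← hcen _ (comm_mem b x) a, mul_inv_cancel_right]
            exact hcen _ (comm_mem b x) _ }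
      let K : Subgroup G := φ.range.map (commutator G).subtype
      have hKle : K ≤ commutator G := by
        rintro _ ⟨k, _, rfl⟩
        exact k.2
      have hK : K = commutator G := by
        by_contra hne
        obtain ⟨N, hKN, hNc⟩ := exists_le_covBy_of_lt (lt_of_le_of_ne hKle hne)
        apply hx
        rw [← hN N hNc x]
        intro g
        rw [← commutatorElement_inv]
        apply inv_mem
        apply hKN
        exact ⟨φ g, ⟨g, rfl⟩, rfl⟩
      have h1 : x * c * x⁻¹ ∈ K := by
        rw [hK]
        exact Subgroup.Normal.conj_mem inferInstance c hc x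
      obtain ⟨_, ⟨t, rfl⟩, ht⟩ := h1
      have ht' : ⁅t, x⁆ = x * c * x⁻¹ := ht
      refine isConj_iff.mpr ⟨t, ?_⟩
      have h2 : t * x * t⁻¹ = ⁅t, x⁆ * x := by rw [commutatorElement_def]; group
      rw [h2, ht']; group

end Pool.Agent.Results.MP_932391_al.Classification
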